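import Mathlib
import Pool.Agent.MP_417fa2_gt.Flow.LevS
import Pool.Agent.MP_417fa2_gt.An.Main

/-!
Global existence and uniqueness for the flow `∂g/∂t = -(P_g Q_g) g` on a closed 4-manifold whose
Paneitz operator is nonnegative with kernel the constants.
-/

open scoped Manifold ContDiff
open MeasureTheory Set Pool.Agent.MP_417fa2_gt

universe u

theorem Pool.Agent.Results.MP_417fa2_gt.GlobalExistence.result
    (M : Type u) [TopologicalSpace M] [T2Space M] [CompactSpace M] [ChartedSpace E4 M]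
    [IsManifold (𝓡 4) ∞ M] [MeasurableSpace M] [BorelSpace M] (g g₀ : RMetric M)
    (nonneg : ∀ φ : M → ℝ, Smooth φ → 0 ≤ ∫ x, φ x * paneitz g φ x ∂vol g)
    (kernel : ∀ φ : M → ℝ, Smooth φ → (∀ x, paneitz g φ x = 0) → ∃ c, ∀ x, φ x = c)
    (conformal : ∃ w : M → ℝ, Smooth w ∧
      ∀ x v v', gin g₀ x v v' = Real.exp (2 * w x) * gin g x v v') :
    ∃ γ : ℝ → RMetric M, γ 0 = g₀ ∧ IsFlow (Ici 0) γ ∧
      ∀ T : ℝ, 0 < T → ∀ γ' : ℝ → RMetric M, γ' 0 = g₀ → IsFlow (Ico 0 T) γ' →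
        ∀ t ∈ Ico 0 T, γ' t = γ t :=
  main_of an M g g₀ nonneg kernel conformal
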