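import Mathlib
import Pool.Agent.MP_417fa2_gt.Q2.Main
import Pool.Agent.MP_417fa2_gt.Q2.Conn

/-!
A closed 4-manifold, not a sphere, with nonnegative Paneitz operator, kernel the constants and total
Q-curvature `8 π²`, and a global solution of `∂g/∂t = -(P_g Q_g) g` in its conformal class that
approaches no metric of constant Q-curvature.
-/

open scoped Manifold ContDiff Topology
open MeasureTheory Set Filter Pool.Agent.MP_417fa2_gt

theorem Pool.Agent.Results.MP_417fa2_gt.NonConvergence.result :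
    ∃ (M : Type) (_ : TopologicalSpace M) (_ : T2Space M) (_ : CompactSpace M)
      (_ : ConnectedSpace M) (_ : ChartedSpace E4 M) (_ : IsManifold (𝓡 4) ∞ M)
      (_ : MeasurableSpace M) (_ : BorelSpace M) (g : RMetric M) (γ : ℝ → RMetric M),
      IsEmpty (M ≃ₜ Metric.sphere (0 : EuclideanSpace ℝ (Fin 5)) 1) ∧
      IsVolume g (vol g) ∧
      (∀ φ : M → ℝ, Smooth φ → 0 ≤ ∫ x, φ x * paneitz g φ x ∂vol g) ∧
      (∀ φ : M → ℝ, Smooth φ → (∀ x, paneitz g φ x = 0) → ∃ c, ∀ x, φ x = c) ∧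
      ∫ x, qCurv g x ∂vol g = 8 * Real.pi ^ 2 ∧
      IsFlow (Ici 0) γ ∧
      (∃ w : M → ℝ, Smooth w ∧ ∀ x v v', gin (γ 0) x v v' = Real.exp (2 * w x) * gin g x v v') ∧
      ∀ g' : RMetric M,
        (∃ w : M → ℝ, Smooth w ∧ ∀ x v v', gin g' x v v' = Real.exp (2 * w x) * gin g x v v') →
        (∃ c, ∀ x, qCurv g' x = c) → ∀ t : ℕ → ℝ, (∀ n, 0 ≤ t n) →
          ¬∀ᵐ x ∂vol g, ∀ v v',
            Tendsto (fun n => gin (γ (t n)) x v v') atTop (𝓝 (gin g' x v v')) := by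
  obtain ⟨M, i1, i2, i3, i4, i5, i6, i7, g, γ, h1, h2, h3, h4, h5, h6, h7⟩ := Q2.All.hFinal
  have hp := Q2.Conn.preconnected g h3
  have hn : Nonempty M := by
    by_contra hc
    rw [not_nonempty_iff] at hc
    rw [integral_of_isEmpty] at h4
    exact (by positivity : (0 : ℝ) < 8 * Real.pi ^ 2).ne h4
  exact ⟨M, i1, i2, i3, ⟨hn⟩, i4, i5, i6, i7, g, γ, h1, isVolume_vol g, h2, h3, h4, h5, h6, h7⟩
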